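import Pool.Agent.Helper74.WB.St

/-!
# Project WB (MP_26f0da_lc): module SIM, the simulation
-/

set_option autoImplicit false

namespace Pool.Agent.Helper42.WB

open Pool.Agent.Helper74 Pool.Agent.Helper74.WB

theorem hSIM (hGRE : StGRE) (hRUN : StRUN) (hCOM : StCOM) : StSIM := by
  intro α W _ rk Pm S hPm
  classical
  have hfin : {p : W × List W | p.2.length ≤ 8}.Finite := by
    refine (Set.finite_univ.prod (List.finite_length_le W 8)).subset ?_
    rintro ⟨X, γ⟩ h
    exact ⟨Set.mem_univ _, h⟩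
  have hf : ∀ a, {p : W × List W | Pm a p.1 p.2}.Finite := fun a =>
    hfin.subset fun p hp => (hPm a p.1 p.2 hp).1
  obtain ⟨l, hl, hnd⟩ : ∃ l : α → List (W × List W), (∀ a p, p ∈ l a ↔ Pm a p.1 p.2) ∧
      ∀ a, (l a).Nodup := by
    refine ⟨fun a => (hf a).toFinset.toList, fun a p => ?_, fun a => Finset.nodup_toList _⟩
    rw [Finset.mem_toList, Set.Finite.mem_toFinset]
    rfl
  have hRc : ∀ a, ∀ g ∈ l a, Rc rk g := fun a g hg => (hPm a g.1 g.2 ((hl a g).1 hg)).2
  have hPl : (fun a X γ => (X, γ) ∈ l a) = Pm := by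
    funext a X γ
    exact propext (hl a (X, γ))
  refine ⟨[((.z S, true), false)], fun a => blk (l a), by simp, by simp [blk], ?_⟩
  intro w
  have h1 : DR.Acc Pm [S] w ↔ Gr (w.flatMap fun a => blk (l a)) (cfg [S]) [] := by
    rw [← hPl]
    exact ⟨hCOM α W l [S] w, hRUN α W rk l hRc hnd w [S]⟩
  rw [h1, hGRE, List.cons_append, List.nil_append, gr_mand]
  rfl

end Pool.Agent.Helper42.WB
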