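import Pool.Agent.Helper74.WB.St

/-!
# Project WB (MP_26f0da_lc): module TRB, the coded word read with heights
-/

set_option autoImplicit false

namespace Pool.Agent.Helper42.WB

open Pool.Agent.Helper74 Pool.Agent.Helper74.WB

private theorem ht_cons (x : Fin 4) (w : List (Fin 4)) : ht (x :: w) = stp4 x + ht w := by
  simp [ht]

private theorem ht_append (u v : List (Fin 4)) : ht (u ++ v) = ht u + ht v := by
  simp [ht]

private theorem tr_append (u v : List (Fin 4)) (η : ℤ) :
    tr η (u ++ v) = tr η u ++ tr (η + ht u) v := by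
  induction u generalizing η with
  | nil => simp [tr, ht]
  | cons x u ih =>
    rw [List.cons_append, tr, tr, ih, ht_cons, List.append_assoc]
    congr 3
    ring

private theorem rep0 (i : ℕ) (η : ℤ) :
    tr η (List.replicate i 0) = [] ∧ ht (List.replicate i 0) = i := by
  induction i generalizing η with
  | zero => simp [tr, ht]
  | succ n ih =>
    rw [List.replicate_succ, tr, ht_cons, (ih _).1, (ih η).2]
    simp [stp4]
    ring

private theorem rep1 (i : ℕ) (η : ℤ) :
    tr η (List.replicate i 1) = [] ∧ ht (List.replicate i 1) = -(i : ℤ) := by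
  induction i generalizing η with
  | zero => simp [tr, ht]
  | succ n ih =>
    rw [List.replicate_succ, tr, ht_cons, (ih _).1, (ih η).2]
    have : stp4 1 = -1 := by decide
    rw [this]
    refine ⟨by simp, ?_⟩
    push_cast
    ring

private theorem ht_pw (a : (ℕ × Bool) × Bool) : ht (pw a) = 0 := by
  rw [pw, ht_append, ht_append, (rep0 _ 0).2, (rep1 _ 0).2]
  have h1 : ht [1, 2] = 0 := by decide
  have h2 : ht [3, 0] = 0 := by decide
  split_ifs
  · rw [h1]; ring
  · rw [h2]; ring

private theorem tr_pw (i : ℕ) (s : Bool) :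
    tr 0 (pw ((i, s), s)) = [(((i : ℤ), s), s)] := by
  rw [pw, tr_append, (rep0 _ 0).1, (rep0 _ 0).2, tr_append, (rep1 _ _).1]
  cases s
  · simp [tr, stp4]
  · simp [tr, stp4]

theorem hTRB : StTRB := by
  intro w
  induction w with
  | nil => intro _; rfl
  | cons a w ih =>
    intro hw
    rw [List.flatMap_cons, tr_append, ht_pw, add_zero, ih (fun b hb => hw b (by simp [hb])),
      List.map_cons]
    obtain ⟨⟨i, s⟩, o⟩ := a
    have h : o = s := hw ((i, s), o) (by simp)
    subst h
    rw [tr_pw]
    rfl

end Pool.Agent.Helper42.WB
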